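import Pool.Agent.H752.GM.Stubs
import Pool.Agent.H620R2.GaugeR.R8
import Pool.Agent.H620R2.Gauge.A1
import Pool.Agent.H620R2.GaugeR.Seq

/-! # M10: many oracles with `MA ≠ AM` -/

namespace Pool.Agent.H752.GM

open Pool.Agent.NPC Pool.Agent.H620R2.Gauge Finset H568R2 MeasureTheory

theorem M10_blk {x y : List Bool} (h : y ∈ blk x) : ∃ v, y = pairBits x v := by
  rcases h with ⟨v, _, h⟩ | ⟨i, _, h⟩
  · exact ⟨v, h⟩
  · exact ⟨_, h⟩

theorem M10_inj {x y v w : List Bool} (h : pairBits x v = pairBits y w) : x = y := by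
  have h7 := congrArg unpair h
  rw [unpair_pairBits, unpair_pairBits] at h7
  exact (Prod.ext_iff.1 h7).1

theorem M10_len (x v : List Bool) : 2 * x.length < (pairBits x v).length := by
  have h : (x.flatMap (fun b => [true, b])).length = 2 * x.length := by
    induction x with
    | nil => rfl
    | cons a x ih =>
      rw [List.flatMap_cons, List.length_append, ih, List.length_cons, List.length_cons,
        List.length_cons, List.length_nil]
      omega
  unfold pairBits
  rw [List.length_append, h, List.length_cons]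
  omega

theorem M10_countable : Countable (Alg × Polynomial ℕ) := by
  have h2 : Countable (Polynomial ℕ) := by
    have : Function.Injective (fun p : Polynomial ℕ => (p.toFinsupp.coeff : ℕ →₀ ℕ)) := by
      intro p q h
      ext n
      exact DFunLike.congr_fun h n
    exact this.countable
  infer_instance

theorem M10_acc {M : Alg} {A : Oracle} {V : List Bool → List Bool}
    (hM : ∀ x, M.out A x = some (V x)) (m : ℕ) (y x : List Bool) :
    accPr V m (pairBits y x) = (accN M A m y x : ℝ) / 2 ^ m := by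
  unfold accPr accN
  simp only [hM, Option.some.injEq]

theorem t_ma (h2 : St_stage) (h3 : St_mark) (h4 : St_seq) (h8 : St_ammem) (h9 : St_ammod) :
    St_ma := by
  classical
  intro f hf
  have hne : Nonempty Alg := by
    obtain ⟨M, _⟩ := IsFP.of_poly (A := fun _ => false) (F := fun x => x) Poly.id
    exact ⟨M⟩
  have hct := M10_countable
  obtain ⟨g, hg⟩ := exists_surjective_nat (Alg × Polynomial ℕ)
  choose P Q hPQ using fun j : ℕ => h9 (g j).1 (g j).2
  obtain ⟨x, hx, hx1, hx2, c, hc⟩ := h4 f hf P Q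
  have hxinj : ∀ i j, x i = x j → i = j := fun i j h => hx.injective (by rw [h])
  obtain ⟨Φ, hΦ⟩ := h2 (fun j => blk (x j)) (fun j A => ReqM (g j).1 (g j).2 A (x j))
    (fun j => 2 * (x (j + 1)).length)
    (by
      intro i j hij y hy
      obtain ⟨v, rfl⟩ := M10_blk hy
      have h5 := M10_len (x j) v
      have h6 : (x (i + 1)).length ≤ (x j).length := hx.monotone (by omega)
      show 2 * (x (i + 1)).length < _
      omega)
    (by
      intro i j hij
      rw [Set.disjoint_left]
      intro y hy hy'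
      obtain ⟨v, h5⟩ := M10_blk hy
      obtain ⟨w, h6⟩ := M10_blk hy'
      have h7 := hxinj i j (M10_inj (h5.symm.trans h6))
      omega)
    (by
      intro j A A' hA
      exact (hPQ j (x j)).2 A A' (fun y hy => hA y (hy.trans (hx2 j))))
    (by
      intro j A
      exact (hPQ j (x j)).1 (hx1 j) A)
  refine not_null_of f {B | ∀ x, ¬ Marked B x} h3 Φ {y | ∃ j, y ∈ blk (x j)}
    (fun B y hy => (hΦ B).1 y (fun j hj => hy ⟨j, hj⟩)) c hc _ ?_
  intro B hB
  refine ⟨amLang (Φ B), h8 _ ?_, ?_⟩
  · intro y hy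
    by_cases h : ∃ j, y = x j
    · obtain ⟨j, rfl⟩ := h
      exact ((hΦ B).2 j).2.1
    · exfalso
      apply hB y
      intro i hi
      rw [← hy i hi]
      symm
      apply (hΦ B).1
      intro j hj
      obtain ⟨v, h5⟩ := M10_blk hj
      exact h ⟨j, M10_inj h5⟩
  · rintro ⟨V, p, ⟨M, hM⟩, hV⟩
    obtain ⟨j, hj⟩ := hg (M, p)
    have h5 := (hΦ B).2 j
    rw [hj] at h5
    apply h5.2.2
    have hpos : (0 : ℝ) < 2 ^ (p.eval (x j).length) := by positivity
    refine ⟨fun h6 => ?_, fun h6 y hy => ?_⟩
    · obtain ⟨y, hy1, hy2⟩ := (hV (x j)).1 h6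
      refine ⟨y, hy1, ?_⟩
      rw [M10_acc hM, div_le_div_iff₀ (by norm_num) hpos] at hy2
      have h7 : ((2 * 2 ^ (p.eval (x j).length) : ℕ) : ℝ) ≤
          ((3 * accN M (Φ B) (p.eval (x j).length) y (x j) : ℕ) : ℝ) := by
        push_cast
        linarith
      exact_mod_cast h7
    · have hy2 := (hV (x j)).2 h6 y hy
      rw [M10_acc hM, div_le_div_iff₀ hpos (by norm_num)] at hy2
      have h7 : ((3 * accN M (Φ B) (p.eval (x j).length) y (x j) : ℕ) : ℝ) ≤
          ((2 ^ (p.eval (x j).length) : ℕ) : ℝ) := by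
        push_cast
        linarith
      exact_mod_cast h7

end Pool.Agent.H752.GM
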